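import Mathlib

/-!
# One-parameter subgroups over the `ℓ`-adic numbers
-/

namespace Pool.Agent.TH30.MT

open Filter Topology Finset

variable {ℓ : ℕ} [Fact ℓ.Prime] {n : ℕ}

/-- All entries have absolute value at most `r`. -/
def Bd {m n : Type} (r : ℝ) (A : Matrix m n ℚ_[ℓ]) : Prop := ∀ i j, ‖A i j‖ ≤ r

section Bd

variable {r s : ℝ} {A B : Matrix (Fin n) (Fin n) ℚ_[ℓ]}

theorem Bd.add (hA : Bd r A) (hB : Bd r B) : Bd r (A + B) := fun i j => by
  rw [Matrix.add_apply]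
  exact (IsUltrametricDist.norm_add_le_max _ _).trans (max_le (hA i j) (hB i j))

theorem Bd.neg (hA : Bd r A) : Bd r (-A) := fun i j => by
  rw [Matrix.neg_apply, norm_neg]
  exact hA i j

theorem Bd.sub (hA : Bd r A) (hB : Bd r B) : Bd r (A - B) := by
  rw [sub_eq_add_neg]
  exact hA.add hB.neg

theorem Bd.mono (hA : Bd r A) (h : r ≤ s) : Bd s A := fun i j => (hA i j).trans h

theorem Bd.zero (hr : 0 ≤ r) : Bd r (0 : Matrix (Fin n) (Fin n) ℚ_[ℓ]) := fun i j => by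
  rw [Matrix.zero_apply, norm_zero]
  exact hr

theorem Bd.mul (hr : 0 ≤ r) (hs : 0 ≤ s) (hA : Bd r A) (hB : Bd s B) : Bd (r * s) (A * B) := by
  intro i j
  rw [Matrix.mul_apply]
  refine IsUltrametricDist.norm_sum_le_of_forall_le_of_nonneg (mul_nonneg hr hs) fun l _ => ?_
  rw [norm_mul]
  exact mul_le_mul (hA i l) (hB l j) (norm_nonneg _) hr

theorem Bd.smul (hA : Bd r A) (c : ℚ_[ℓ]) : Bd (‖c‖ * r) (c • A) := by
  intro i j
  rw [Matrix.smul_apply, smul_eq_mul, norm_mul]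
  exact mul_le_mul_of_nonneg_left (hA i j) (norm_nonneg _)

theorem Bd.sum {ι : Type} (S : Finset ι) (F : ι → Matrix (Fin n) (Fin n) ℚ_[ℓ]) (hr : 0 ≤ r)
    (h : ∀ i ∈ S, Bd r (F i)) : Bd r (∑ i ∈ S, F i) := by
  intro i j
  rw [Matrix.sum_apply]
  exact IsUltrametricDist.norm_sum_le_of_forall_le_of_nonneg hr fun l hl => h l hl i j

theorem Bd.one : Bd 1 (1 : Matrix (Fin n) (Fin n) ℚ_[ℓ]) := by
  intro i j
  rw [Matrix.one_apply]
  split_ifs
  · rw [norm_one]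
  · rw [norm_zero]
    exact zero_le_one

end Bd

variable {T : Matrix (Fin n) (Fin n) ℚ_[ℓ]}

/-- The inverse of `ℓ`. -/
noncomputable abbrev li (ℓ : ℕ) : ℝ := (ℓ : ℝ)⁻¹

theorem li_pos : 0 < li ℓ := inv_pos.2 (by exact_mod_cast (Fact.out : ℓ.Prime).pos)

theorem li_lt : li ℓ < 1 := inv_lt_one_of_one_lt₀ (by exact_mod_cast (Fact.out : ℓ.Prime).one_lt)

/-- If `T - 1` is small then the powers are bounded. -/
theorem bd_one_of {r : ℝ} (hr1 : r ≤ 1) (h : Bd r (T - 1)) : Bd 1 T := by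
  have : T = (T - 1) + 1 := by abel
  rw [this]
  exact (h.mono hr1).add Bd.one

theorem bd_pow {r : ℝ} (hr0 : 0 ≤ r) (hr1 : r ≤ 1) (h : Bd r (T - 1)) (j : ℕ) :
    Bd r (T ^ j - 1) ∧ Bd 1 (T ^ j) := by
  induction j with
  | zero =>
    rw [pow_zero, sub_self]
    exact ⟨Bd.zero hr0, Bd.one⟩
  | succ j ih =>
    have h1 : Bd r (T ^ (j + 1) - 1) := by
      have e : T ^ (j + 1) - 1 = T ^ j * (T - 1) + (T ^ j - 1) := by
        rw [pow_succ, mul_sub, mul_one]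
        abel
      rw [e]
      refine Bd.add ?_ ih.1
      have := Bd.mul zero_le_one hr0 ih.2 h
      rwa [one_mul] at this
    exact ⟨h1, bd_one_of hr1 h1⟩

/-- The `ℓ`-th power. -/
theorem bd_pow_prime {r : ℝ} (hr0 : 0 ≤ r) (hr : r ≤ li ℓ ^ 2) (h : Bd r (T - 1)) :
    Bd (li ℓ * r) (T ^ ℓ - 1) := by
  have hl0 := (li_pos (ℓ := ℓ)).le
  have hl1 := (li_lt (ℓ := ℓ)).le
  have hr1 : r ≤ 1 := hr.trans (pow_le_one₀ hl0 hl1)
  have e : T ^ ℓ - 1 = (∑ j ∈ range ℓ, T ^ j) * (T - 1) := (geom_sum_mul T ℓ).symm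
  have e2 : (∑ j ∈ range ℓ, T ^ j) = (ℓ : ℚ_[ℓ]) • 1 + ∑ j ∈ range ℓ, (T ^ j - 1) := by
    rw [Finset.sum_sub_distrib, Finset.sum_const, card_range, Nat.cast_smul_eq_nsmul]
    abel
  rw [e]
  refine Bd.mul hl0 hr0 ?_ h
  rw [e2]
  refine Bd.add ?_ (Bd.sum _ _ hl0 fun j _ => (bd_pow hr0 hr1 h j).1.mono ?_)
  · have h2 := Bd.smul (Bd.one (ℓ := ℓ) (n := n)) (ℓ : ℚ_[ℓ])
    rwa [Padic.norm_p, mul_one] at h2
  · refine hr.trans ?_
    rw [sq]
    exact mul_le_of_le_one_left hl0 hl1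

theorem bd_pow_pow (h : Bd (li ℓ ^ 2) (T - 1)) (k : ℕ) :
    Bd (li ℓ ^ k * li ℓ ^ 2) (T ^ (ℓ ^ k) - 1) := by
  have hl0 := (li_pos (ℓ := ℓ)).le
  have hl1 := (li_lt (ℓ := ℓ)).le
  induction k with
  | zero =>
    simp only [pow_zero, pow_one, one_mul]
    exact h
  | succ k ih =>
    have h1 := bd_pow_prime (mul_nonneg (pow_nonneg hl0 _) (pow_nonneg hl0 _))
      (mul_le_of_le_one_left (pow_nonneg hl0 2) (pow_le_one₀ hl0 hl1)) ih
    rw [← pow_mul, ← pow_succ, ← mul_assoc, ← pow_succ'] at h1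
    exact h1

/-- The commutator with the `ℓ`-th power. -/
theorem comm_prime (h : Bd (li ℓ ^ 2) (T - 1)) (P : Matrix (Fin n) (Fin n) ℚ_[ℓ]) {r : ℝ}
    (hc : Bd (li ℓ * r) (T ^ ℓ * P - P * T ^ ℓ)) : Bd r (T * P - P * T) := by
  have hl0 := li_pos (ℓ := ℓ)
  have hl1 := li_lt (ℓ := ℓ)
  have hl2 : (0 : ℝ) ≤ li ℓ ^ 2 := pow_nonneg hl0.le 2
  have hl3 : li ℓ ^ 2 ≤ 1 := pow_le_one₀ hl0.le hl1.le
  by_cases hn : n = 0
  · subst hn
    intro i
    exact i.elim0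
  have : Nonempty (Fin n × Fin n) := ⟨⟨⟨0, Nat.pos_of_ne_zero hn⟩, ⟨0, Nat.pos_of_ne_zero hn⟩⟩⟩
  set C := T * P - P * T with hC
  obtain ⟨⟨i₀, j₀⟩, hmax⟩ := Finite.exists_max (fun x : Fin n × Fin n => ‖C x.1 x.2‖)
  set c := ‖C i₀ j₀‖ with hcdef
  have hCc : Bd c C := fun i j => hmax (i, j)
  have hc0 : 0 ≤ c := norm_nonneg _
  -- the formula for the commutator
  have hform : ∀ m : ℕ, T ^ m * P - P * T ^ m = ∑ j ∈ range m, T ^ j * C * T ^ (m - 1 - j) := by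
    intro m
    induction m with
    | zero => simp
    | succ m ih =>
      rw [sum_range_succ]
      have e1 : ∑ j ∈ range m, T ^ j * C * T ^ (m + 1 - 1 - j) =
          (∑ j ∈ range m, T ^ j * C * T ^ (m - 1 - j)) * T := by
        rw [sum_mul]
        refine sum_congr rfl fun j hj => ?_
        rw [mem_range] at hj
        have : m + 1 - 1 - j = m - 1 - j + 1 := by omega
        rw [this, pow_succ]
        simp only [mul_assoc]
      rw [e1, ← ih, Nat.add_sub_cancel, Nat.sub_self, pow_zero, mul_one, hC, pow_succ]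
      simp only [mul_sub, sub_mul, mul_assoc]
      abel
  have hsum : ∀ j ∈ range ℓ, Bd (li ℓ ^ 2 * c) (T ^ j * C * T ^ (ℓ - 1 - j) - C) := by
    intro j _
    obtain ⟨h1, h2⟩ := bd_pow hl2 hl3 h j
    obtain ⟨h3, h4⟩ := bd_pow hl2 hl3 h (ℓ - 1 - j)
    have e : T ^ j * C * T ^ (ℓ - 1 - j) - C =
        (T ^ j - 1) * C * T ^ (ℓ - 1 - j) + C * (T ^ (ℓ - 1 - j) - 1) := by
      simp only [sub_mul, mul_sub, one_mul, mul_one]
      abel
    rw [e]
    refine Bd.add ?_ ?_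
    · have := Bd.mul (mul_nonneg hl2 hc0) zero_le_one (Bd.mul hl2 hc0 h1 hCc) h4
      rwa [mul_one] at this
    · have := Bd.mul hc0 hl2 hCc h3
      rwa [mul_comm] at this
  have hkey : (ℓ : ℚ_[ℓ]) • C = (T ^ ℓ * P - P * T ^ ℓ) -
      ∑ j ∈ range ℓ, (T ^ j * C * T ^ (ℓ - 1 - j) - C) := by
    rw [hform, sum_sub_distrib, sum_const, card_range, Nat.cast_smul_eq_nsmul]
    abel
  -- compare the entries
  have h5 : li ℓ * c ≤ max (li ℓ * r) (li ℓ ^ 2 * c) := by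
    have h6 := congrFun (congrFun hkey i₀) j₀
    rw [Matrix.smul_apply, smul_eq_mul, Matrix.sub_apply] at h6
    have h7 := congrArg norm h6
    rw [norm_mul, Padic.norm_p] at h7
    change li ℓ * c = _ at h7
    rw [h7]
    rw [sub_eq_add_neg]
    refine (IsUltrametricDist.norm_add_le_max _ _).trans (max_le_max (hc i₀ j₀) ?_)
    rw [norm_neg]
    exact Bd.sum _ _ (mul_nonneg hl2 hc0) hsum i₀ j₀
  have h8 : c ≤ r := by
    rcases le_max_iff.1 h5 with h9 | h9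
    · exact le_of_mul_le_mul_left h9 hl0
    · have h10 : c = 0 := by
        by_contra hne
        have hc1 : 0 < c := lt_of_le_of_ne hc0 (Ne.symm hne)
        rw [sq, mul_assoc] at h9
        have h11 : c ≤ li ℓ * c := le_of_mul_le_mul_left h9 hl0
        have h12 : li ℓ * c < c := mul_lt_of_lt_one_left hc1 hl1
        exact absurd h11 (not_le.2 h12)
      have h11 : 0 ≤ li ℓ * r := (norm_nonneg _).trans (hc i₀ j₀)
      rw [h10]
      exact nonneg_of_mul_nonneg_right h11 hl0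
  exact hCc.mono h8

theorem comm_pow (h : Bd (li ℓ ^ 2) (T - 1)) (P : Matrix (Fin n) (Fin n) ℚ_[ℓ]) (k : ℕ) :
    ∀ {r : ℝ}, Bd (li ℓ ^ k * r) (T ^ (ℓ ^ k) * P - P * T ^ (ℓ ^ k)) → Bd r (T * P - P * T) := by
  induction k with
  | zero =>
    intro r hr
    simp only [pow_zero, pow_one, one_mul] at hr
    exact hr
  | succ k ih =>
    intro r hr
    apply ih
    have hl0 := (li_pos (ℓ := ℓ)).le
    have hl1 := (li_lt (ℓ := ℓ)).le
    have h1 : Bd (li ℓ ^ 2) (T ^ (ℓ ^ k) - 1) :=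
      (bd_pow_pow h k).mono (mul_le_of_le_one_left (pow_nonneg hl0 2) (pow_le_one₀ hl0 hl1))
    apply comm_prime h1
    rw [← pow_mul, ← pow_succ, ← mul_assoc, ← pow_succ']
    exact hr

end Pool.Agent.TH30.MT
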