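import Mathlib
import Pool.Agent.TH30.MT.Padic

/-!
# The logarithm as a limit
-/

namespace Pool.Agent.TH30.MT

open Filter Topology Finset

variable {ℓ : ℕ} [Fact ℓ.Prime] {n : ℕ}

/-- Forms on a finite-dimensional space are continuous. -/
theorem continuous_form {κ : Type} [Fintype κ]
    (φ : MultilinearMap ℚ_[ℓ] (fun _ : κ => Fin n → ℚ_[ℓ]) ℚ_[ℓ]) : Continuous φ := by
  classical
  have h : ∀ v : κ → Fin n → ℚ_[ℓ], φ v =
      ∑ r : κ → Fin n, (∏ l, v l (r l)) * φ (fun l => Pi.single (r l) 1) := by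
    intro v
    have e : v = fun l => ∑ i, v l i • (Pi.single i 1 : Fin n → ℚ_[ℓ]) := by
      funext l
      exact pi_eq_sum_univ' (v l) |>.trans (by
        refine sum_congr rfl fun i _ => ?_
        congr 1)
    conv_lhs => rw [e]
    rw [φ.map_sum]
    refine sum_congr rfl fun r _ => ?_
    rw [φ.map_smul_univ, smul_eq_mul]
  have h2 : (φ : (κ → Fin n → ℚ_[ℓ]) → ℚ_[ℓ]) = fun v =>
      ∑ r : κ → Fin n, (∏ l, v l (r l)) * φ (fun l => Pi.single (r l) 1) := funext h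
  rw [h2]
  refine continuous_finsetSum _ fun r _ => Continuous.mul (continuous_finsetProd _ fun l _ => ?_)
    continuous_const
  exact (continuous_apply (r l)).comp (continuous_apply l)

/-- The difference quotient of a power. -/
theorem tendsto_quot {A : Type} [Ring A] [Algebra ℚ_[ℓ] A] [TopologicalSpace A]
    [IsTopologicalRing A] [ContinuousSMul ℚ_[ℓ] A] (x : ℕ → A) (Y : ℕ → A) (Y₀ : A)
    (t : ℕ → ℚ_[ℓ]) (ht : ∀ k, t k ≠ 0) (ht0 : Tendsto t atTop (𝓝 0))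
    (hx : ∀ k, x k = 1 + t k • Y k) (hY : Tendsto Y atTop (𝓝 Y₀)) (N : ℕ) :
    Tendsto (fun k => (t k)⁻¹ • (x k ^ N - 1)) atTop (𝓝 ((N : ℚ_[ℓ]) • Y₀)) := by
  have h1 : Tendsto x atTop (𝓝 1) := by
    have h2 : Tendsto (fun k => 1 + t k • Y k) atTop (𝓝 (1 + (0 : ℚ_[ℓ]) • Y₀)) :=
      tendsto_const_nhds.add (ht0.smul hY)
    rw [zero_smul, add_zero] at h2
    exact h2.congr fun k => (hx k).symm
  have h3 : ∀ k, (t k)⁻¹ • (x k ^ N - 1) = (∑ j ∈ range N, x k ^ j) * Y k := by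
    intro k
    have e : x k - 1 = t k • Y k := by rw [hx k, add_sub_cancel_left]
    rw [← geom_sum_mul, e, mul_smul_comm, smul_smul, inv_mul_cancel₀ (ht k), one_smul]
  have h4 : Tendsto (fun k => (∑ j ∈ range N, x k ^ j) * Y k) atTop
      (𝓝 ((∑ j ∈ range N, (1 : A) ^ j) * Y₀)) := by
    refine Tendsto.mul (tendsto_finsetSum _ fun j _ => h1.pow j) hY
  have h5 : (∑ j ∈ range N, (1 : A) ^ j) * Y₀ = (N : ℚ_[ℓ]) • Y₀ := by
    simp [Algebra.smul_def]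
  rw [← h5]
  exact h4.congr fun k => (h3 k).symm

/-- The logarithm. -/
theorem exists_log (T : Matrix (Fin n) (Fin n) ℚ_[ℓ]) (x : ℚ_[ℓ]) (hT : Bd (li ℓ ^ 2) (T - 1))
    (hx : ‖x - 1‖ ≤ li ℓ ^ 2) :
    ∃ (Y₀ : Matrix (Fin n) (Fin n) ℚ_[ℓ]) (y₀ : ℚ_[ℓ]),
      (∀ P : Matrix (Fin n) (Fin n) ℚ_[ℓ], Y₀ * P = P * Y₀ → T * P = P * T) ∧
      ∀ (κ : Type) [Fintype κ] [DecidableEq κ]
        (φ : MultilinearMap ℚ_[ℓ] (fun _ : κ => Fin n → ℚ_[ℓ]) ℚ_[ℓ]) (N M : ℕ),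
        (∀ (j : ℕ) (v : κ → Fin n → ℚ_[ℓ]),
          φ (fun l => (T ^ (N * j)).mulVec (v l)) = x ^ (M * j) * φ v) →
        ∀ v : κ → Fin n → ℚ_[ℓ],
          (N : ℚ_[ℓ]) * ∑ j, φ (Function.update v j (Y₀.mulVec (v j))) = M * y₀ * φ v := by
  have hl0 := li_pos (ℓ := ℓ)
  have hl1 := li_lt (ℓ := ℓ)
  have hl0' : (ℓ : ℚ_[ℓ]) ≠ 0 := by exact_mod_cast (Fact.out : ℓ.Prime).ne_zero
  have hle : li ℓ ^ 2 ≤ 1 := pow_le_one₀ hl0.le hl1.le
  have hnorm : ∀ k : ℕ, ‖((ℓ : ℚ_[ℓ]) ^ k)⁻¹‖ = (li ℓ ^ k)⁻¹ := by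
    intro k
    rw [norm_inv, norm_pow, Padic.norm_p]
  set Y : ℕ → Matrix (Fin n) (Fin n) ℚ_[ℓ] := fun k => ((ℓ : ℚ_[ℓ]) ^ k)⁻¹ • (T ^ (ℓ ^ k) - 1)
    with hYd
  set y : ℕ → ℚ_[ℓ] := fun k => ((ℓ : ℚ_[ℓ]) ^ k)⁻¹ * (x ^ (ℓ ^ k) - 1) with hyd
  have hYb : ∀ k, Bd 1 (Y k) := by
    intro k
    have h1 := Bd.smul (bd_pow_pow hT k) ((ℓ : ℚ_[ℓ]) ^ k)⁻¹
    refine h1.mono ?_
    rw [hnorm, ← mul_assoc, inv_mul_cancel₀ (pow_pos hl0 k).ne', one_mul]
    exact hle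
  have hyb : ∀ k, ‖y k‖ ≤ 1 := by
    intro k
    have h0 : Bd (li ℓ ^ 2) ((x • (1 : Matrix (Fin 1) (Fin 1) ℚ_[ℓ])) - 1) := by
      intro i j
      have hi : i = j := Subsingleton.elim i j
      subst hi
      simpa using hx
    have h1 := Bd.smul (bd_pow_pow h0 k) ((ℓ : ℚ_[ℓ]) ^ k)⁻¹ 0 0
    rw [hnorm, ← mul_assoc, inv_mul_cancel₀ (pow_pos hl0 k).ne', one_mul] at h1
    refine le_trans (le_of_eq ?_) (h1.trans hle)
    rw [smul_pow, one_pow, Matrix.smul_apply, Matrix.sub_apply, Matrix.smul_apply,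
      Matrix.one_apply_eq, smul_eq_mul, smul_eq_mul, mul_one]
  -- a convergent subsequence
  have hcomp : ∃ a : (Fin n → Fin n → ℚ_[ℓ]) × ℚ_[ℓ], ∃ f : ℕ → ℕ, StrictMono f ∧
      Tendsto ((fun k => ((fun i j => Y k i j : Fin n → Fin n → ℚ_[ℓ]), y k)) ∘ f) atTop
        (𝓝 a) := by
    obtain ⟨a, -, f, hf, hlim⟩ := (isCompact_closedBall
      (0 : (Fin n → Fin n → ℚ_[ℓ]) × ℚ_[ℓ]) 1).tendsto_subseq
      (x := fun k => ((fun i j => Y k i j : Fin n → Fin n → ℚ_[ℓ]), y k)) (by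
        intro k
        rw [mem_closedBall_zero_iff, Prod.norm_def]
        refine max_le ?_ (hyb k)
        rw [pi_norm_le_iff_of_nonneg zero_le_one]
        intro i
        rw [pi_norm_le_iff_of_nonneg zero_le_one]
        intro j
        exact hYb k i j)
    exact ⟨a, f, hf, hlim⟩
  obtain ⟨⟨Y₀, y₀⟩, f, hf, hlim⟩ := hcomp
  have hlim1 : Tendsto (fun k => Y (f k)) atTop (𝓝 (Matrix.of Y₀)) :=
    (continuous_fst.tendsto _).comp hlim
  have hlim2 : Tendsto (fun k => y (f k)) atTop (𝓝 y₀) := (continuous_snd.tendsto _).comp hlim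
  have ht0 : Tendsto (fun k => (ℓ : ℚ_[ℓ]) ^ f k) atTop (𝓝 0) := by
    have h1 : Tendsto (fun k => (ℓ : ℚ_[ℓ]) ^ k) atTop (𝓝 0) := by
      apply tendsto_pow_atTop_nhds_zero_of_norm_lt_one
      rw [Padic.norm_p]
      exact hl1
    exact h1.comp hf.tendsto_atTop
  have ht : ∀ k, (ℓ : ℚ_[ℓ]) ^ f k ≠ 0 := fun k => pow_ne_zero _ hl0'
  refine ⟨Matrix.of Y₀, y₀, ?_, ?_⟩
  · -- commutation
    intro P hP
    have h1 : Tendsto (fun k => Y (f k) * P - P * Y (f k)) atTop (𝓝 0) := by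
      have h2 : Tendsto (fun k => Y (f k) * P - P * Y (f k)) atTop
          (𝓝 (Matrix.of Y₀ * P - P * Matrix.of Y₀)) :=
        (hlim1.mul tendsto_const_nhds).sub (tendsto_const_nhds.mul hlim1)
      rwa [hP, sub_self] at h2
    have h3 : ∀ r : ℝ, 0 < r → Bd r (T * P - P * T) := by
      intro r hr
      have h4 : ∀ᶠ k in atTop, Bd r (Y (f k) * P - P * Y (f k)) := by
        have h5 : ∀ i j, ∀ᶠ k in atTop, ‖(Y (f k) * P - P * Y (f k)) i j‖ ≤ r := by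
          intro i j
          have h6 : Tendsto (fun k => (Y (f k) * P - P * Y (f k)) i j) atTop (𝓝 0) := by
            have h7 := ((continuous_apply j).comp (continuous_apply i)).tendsto
              (0 : Fin n → Fin n → ℚ_[ℓ])
            exact h7.comp h1
          have h8 := h6.norm
          rw [norm_zero] at h8
          have h9 : Tendsto (fun k => ‖(Y (f k) * P - P * Y (f k)) i j‖) atTop (𝓝 0) := by
            exact h8
          exact (h9.eventually (gt_mem_nhds hr)).mono fun k hk => hk.le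
        exact eventually_all.2 fun i => eventually_all.2 fun j => h5 i j
      obtain ⟨k, hk⟩ := h4.exists
      apply comm_pow hT P (f k)
      have h5 := Bd.smul hk ((ℓ : ℚ_[ℓ]) ^ f k)
      rw [norm_pow, Padic.norm_p] at h5
      have h6 : (ℓ : ℚ_[ℓ]) ^ f k • (Y (f k) * P - P * Y (f k)) =
          T ^ ℓ ^ f k * P - P * T ^ ℓ ^ f k := by
        rw [smul_sub, ← smul_mul_assoc, ← mul_smul_comm, hYd]
        simp only
        rw [smul_smul, mul_inv_cancel₀ (ht k), one_smul, sub_mul, mul_sub, one_mul, mul_one]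
        abel
      rwa [h6] at h5
    rw [← sub_eq_zero]
    ext i j
    rw [Matrix.zero_apply]
    by_contra hne
    have h4 := h3 (‖(T * P - P * T) i j‖ / 2) (half_pos (norm_pos_iff.2 hne)) i j
    have h5 : 0 < ‖(T * P - P * T) i j‖ := norm_pos_iff.2 hne
    linarith
  · -- the first order term
    intro κ _ _ φ N M hφ v
    let φc : ContinuousMultilinearMap ℚ_[ℓ] (fun _ : κ => Fin n → ℚ_[ℓ]) ℚ_[ℓ] :=
      ⟨φ, continuous_form φ⟩
    have hD : Tendsto (fun k => ((ℓ : ℚ_[ℓ]) ^ f k)⁻¹ • ((T ^ ℓ ^ f k) ^ N - 1)) atTop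
        (𝓝 ((N : ℚ_[ℓ]) • Matrix.of Y₀)) := by
      refine tendsto_quot (fun k => T ^ ℓ ^ f k) (fun k => Y (f k)) _ (fun k => (ℓ : ℚ_[ℓ]) ^ f k)
        ht ht0 (fun k => ?_) hlim1 N
      rw [hYd]
      simp only
      rw [smul_smul, mul_inv_cancel₀ (ht k), one_smul, add_sub_cancel]
    have hd : Tendsto (fun k => ((ℓ : ℚ_[ℓ]) ^ f k)⁻¹ • ((x ^ ℓ ^ f k) ^ M - 1)) atTop
        (𝓝 ((M : ℚ_[ℓ]) • y₀)) := by
      refine tendsto_quot (fun k => x ^ ℓ ^ f k) (fun k => y (f k)) _ (fun k => (ℓ : ℚ_[ℓ]) ^ f k)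
        ht ht0 (fun k => ?_) hlim2 M
      rw [hyd]
      simp only
      rw [smul_eq_mul, ← mul_assoc, mul_inv_cancel₀ (ht k), one_mul, add_sub_cancel]
    have hcd : Tendsto (fun k => ((ℓ : ℚ_[ℓ]) ^ f k)⁻¹ •
        ((fun l => ((T ^ ℓ ^ f k) ^ N).mulVec (v l) - v l) : κ → Fin n → ℚ_[ℓ])) atTop
        (𝓝 (fun l => ((N : ℚ_[ℓ]) • Matrix.of Y₀).mulVec (v l))) := by
      rw [tendsto_pi_nhds]
      intro l
      have h1 : Tendsto (fun k => (((ℓ : ℚ_[ℓ]) ^ f k)⁻¹ • ((T ^ ℓ ^ f k) ^ N - 1)).mulVec (v l))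
          atTop (𝓝 (((N : ℚ_[ℓ]) • Matrix.of Y₀).mulVec (v l))) :=
        ((Continuous.matrix_mulVec continuous_id continuous_const).tendsto _).comp hD
      refine h1.congr fun k => ?_
      rw [Pi.smul_apply, Matrix.smul_mulVec, Matrix.sub_mulVec, Matrix.one_mulVec]
    have hdz : Tendsto (fun k => ((fun l => ((T ^ ℓ ^ f k) ^ N).mulVec (v l) - v l) :
        κ → Fin n → ℚ_[ℓ])) atTop (𝓝 0) := by
      have h1 := ht0.smul hcd
      rw [zero_smul] at h1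
      refine h1.congr fun k => ?_
      rw [smul_smul, mul_inv_cancel₀ (ht k), one_smul]
    have hder := (φc.hasFDerivAt v).hasFDerivWithinAt (s := Set.univ)
    have hL := hder.lim hdz (Eventually.of_forall fun _ => Set.mem_univ _) hcd
    have hR : Tendsto (fun k => ((ℓ : ℚ_[ℓ]) ^ f k)⁻¹ • (φc (v + (fun l =>
        ((T ^ ℓ ^ f k) ^ N).mulVec (v l) - v l)) - φc v)) atTop
        (𝓝 (((M : ℚ_[ℓ]) • y₀) * φ v)) := by
      refine (hd.mul_const (φ v)).congr fun k => ?_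
      have h1 : (v + (fun l => ((T ^ ℓ ^ f k) ^ N).mulVec (v l) - v l)) =
          fun l => (T ^ (N * ℓ ^ f k)).mulVec (v l) := by
        funext l
        rw [Pi.add_apply, add_sub_cancel, ← pow_mul, mul_comm]
      rw [h1]
      change _ = ((ℓ : ℚ_[ℓ]) ^ f k)⁻¹ • (φ (fun l => (T ^ (N * ℓ ^ f k)).mulVec (v l)) - φ v)
      rw [hφ, ← pow_mul, mul_comm (ℓ ^ f k) M, smul_eq_mul, smul_eq_mul]
      ring
    have h2 := tendsto_nhds_unique hL hR
    rw [smul_eq_mul] at h2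
    rw [← h2]
    change _ = (φc.linearDeriv v) _
    rw [ContinuousMultilinearMap.linearDeriv_apply, mul_sum]
    refine sum_congr rfl fun j _ => ?_
    change _ = φ _
    rw [Matrix.smul_mulVec, φ.map_update_smul, smul_eq_mul]

end Pool.Agent.TH30.MT
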