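import Mathlib
import Pool.Agent.TH30.MT.Lim
import Pool.Agent.H204R3.SP.Lie

/-!
# The commutant of the Lie algebra
-/

namespace Pool.Agent.TH30.MT

open Filter Topology Finset Module Pool.Agent.H204R3.SP

variable {ℓ : ℕ} [Fact ℓ.Prime] {n : ℕ}

theorem isOpen_near {Γ : Type} [TopologicalSpace Γ] (f : Γ → ℚ_[ℓ]) (hf : Continuous f) :
    IsOpen {s | ‖f s‖ ≤ li ℓ ^ 2} := by
  have h1 : IsOpen (Metric.closedBall (0 : ℚ_[ℓ]) (li ℓ ^ 2)) :=
    IsUltrametricDist.isOpen_closedBall _ (pow_pos li_pos 2).ne'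
  have h2 : {s | ‖f s‖ ≤ li ℓ ^ 2} = f ⁻¹' (Metric.closedBall (0 : ℚ_[ℓ]) (li ℓ ^ 2)) := by
    ext s
    rw [Set.mem_preimage, mem_closedBall_zero_iff]
    rfl
  rw [h2]
  exact h1.preimage hf

/-- A subgroup of finite index near one. -/
theorem exists_near {Γ : Type} [Group Γ] [TopologicalSpace Γ] [IsTopologicalGroup Γ]
    [CompactSpace Γ] (M : Γ →* Matrix (Fin n) (Fin n) ℚ_[ℓ]) (χ : Γ →* ℚ_[ℓ])
    (hM : ∀ i j, Continuous fun s => M s i j) (hχ : Continuous χ) :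
    ∃ Δ : Subgroup Γ, Δ.FiniteIndex ∧ ∀ s ∈ Δ, Bd (li ℓ ^ 2) (M s - 1) ∧
      ‖χ s - 1‖ ≤ li ℓ ^ 2 := by
  have hl0 := (li_pos (ℓ := ℓ)).le
  have hl1 := (li_lt (ℓ := ℓ)).le
  have h20 : (0 : ℝ) ≤ li ℓ ^ 2 := pow_nonneg hl0 2
  have h21 : li ℓ ^ 2 ≤ 1 := pow_le_one₀ hl0 hl1
  have hmulM : ∀ s t, Bd (li ℓ ^ 2) (M s - 1) → Bd (li ℓ ^ 2) (M t - 1) →
      Bd (li ℓ ^ 2) (M (s * t) - 1) := by
    intro s t hs ht
    have e : M (s * t) - 1 = M s * (M t - 1) + (M s - 1) := by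
      rw [map_mul, mul_sub, mul_one]
      abel
    rw [e]
    refine Bd.add ?_ hs
    have := Bd.mul zero_le_one h20 (bd_one_of h21 hs) ht
    rwa [one_mul] at this
  have hmulχ : ∀ s t, ‖χ s - 1‖ ≤ li ℓ ^ 2 → ‖χ t - 1‖ ≤ li ℓ ^ 2 →
      ‖χ (s * t) - 1‖ ≤ li ℓ ^ 2 := by
    intro s t hs ht
    have e : χ (s * t) - 1 = χ s * (χ t - 1) + (χ s - 1) := by
      rw [map_mul]
      ring
    have h1 : ‖χ s‖ ≤ 1 := by
      have e1 : χ s = (χ s - 1) + 1 := by ring
      rw [e1]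
      refine (IsUltrametricDist.norm_add_le_max _ _).trans (max_le (hs.trans h21) ?_)
      rw [norm_one]
    rw [e]
    refine (IsUltrametricDist.norm_add_le_max _ _).trans (max_le ?_ hs)
    rw [norm_mul]
    calc ‖χ s‖ * ‖χ t - 1‖ ≤ 1 * li ℓ ^ 2 := mul_le_mul h1 ht (norm_nonneg _) zero_le_one
      _ = li ℓ ^ 2 := one_mul _
  let Δ : Subgroup Γ :=
    { carrier := {s | (Bd (li ℓ ^ 2) (M s - 1) ∧ Bd (li ℓ ^ 2) (M s⁻¹ - 1)) ∧
        ‖χ s - 1‖ ≤ li ℓ ^ 2 ∧ ‖χ s⁻¹ - 1‖ ≤ li ℓ ^ 2}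
      mul_mem' := by
        rintro s t ⟨⟨a1, a2⟩, a3, a4⟩ ⟨⟨b1, b2⟩, b3, b4⟩
        refine ⟨⟨hmulM _ _ a1 b1, ?_⟩, hmulχ _ _ a3 b3, ?_⟩
        · rw [mul_inv_rev]
          exact hmulM _ _ b2 a2
        · rw [mul_inv_rev]
          exact hmulχ _ _ b4 a4
      one_mem' := by
        refine ⟨⟨?_, ?_⟩, ?_, ?_⟩
        · rw [map_one, sub_self]
          exact Bd.zero h20
        · rw [inv_one, map_one, sub_self]
          exact Bd.zero h20
        · rw [map_one, sub_self, norm_zero]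
          exact h20
        · rw [inv_one, map_one, sub_self, norm_zero]
          exact h20
      inv_mem' := by
        rintro s ⟨⟨a1, a2⟩, a3, a4⟩
        refine ⟨⟨a2, ?_⟩, a4, ?_⟩
        · rw [inv_inv]
          exact a1
        · rw [inv_inv]
          exact a3 }
  refine ⟨Δ, ?_, fun s hs => ⟨hs.1.1, hs.2.1⟩⟩
  have hopM : IsOpen {s | Bd (li ℓ ^ 2) (M s - 1)} := by
    have h1 : {s | Bd (li ℓ ^ 2) (M s - 1)} = ⋂ i, ⋂ j, {s | ‖M s i j - (1 : Matrix (Fin n)
        (Fin n) ℚ_[ℓ]) i j‖ ≤ li ℓ ^ 2} := by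
      ext s
      simp only [Set.mem_iInter]
      exact Iff.rfl
    rw [h1]
    exact isOpen_iInter_of_finite fun i => isOpen_iInter_of_finite fun j =>
      isOpen_near _ ((hM i j).sub continuous_const)
  have hopχ : IsOpen {s | ‖χ s - 1‖ ≤ li ℓ ^ 2} := isOpen_near _ (hχ.sub continuous_const)
  have hop : IsOpen (Δ : Set Γ) := by
    have h1 : (Δ : Set Γ) = ({s | Bd (li ℓ ^ 2) (M s - 1)} ∩
        (fun s => s⁻¹) ⁻¹' {s | Bd (li ℓ ^ 2) (M s - 1)}) ∩
        ({s | ‖χ s - 1‖ ≤ li ℓ ^ 2} ∩ (fun s => s⁻¹) ⁻¹' {s | ‖χ s - 1‖ ≤ li ℓ ^ 2}) := rfl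
    rw [h1]
    exact (hopM.inter (hopM.preimage continuous_inv)).inter
      (hopχ.inter (hopχ.preimage continuous_inv))
  have := Subgroup.quotient_finite_of_isOpen Δ hop
  exact Subgroup.finiteIndex_of_finite_quotient

/-- An endomorphism that commutes with the Lie algebra commutes with a subgroup of finite index. -/
theorem comm_finite {V : Type} [AddCommGroup V] [Module ℚ_[ℓ] V] (b : Basis (Fin n) ℚ_[ℓ] V)
    {Γ : Type} [Group Γ] [TopologicalSpace Γ] [IsTopologicalGroup Γ]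
    [CompactSpace Γ] (ρ : Representation ℚ_[ℓ] Γ V) (χ : Γ →* ℚ_[ℓ])
    (hρ : ∀ (v : V) (f : V →ₗ[ℚ_[ℓ]] ℚ_[ℓ]), Continuous fun s => f (ρ s v)) (hχ : Continuous χ)
    (P : Module.End ℚ_[ℓ] V) (hP : ∀ X ∈ lieT ρ χ, X * P = P * X) :
    ∃ Δ : Subgroup Γ, Δ.FiniteIndex ∧ ∀ s ∈ Δ, ∀ v, P (ρ s v) = ρ s (P v) := by
  classical
  let mat := LinearMap.toMatrixAlgEquiv b
  let M : Γ →* Matrix (Fin n) (Fin n) ℚ_[ℓ] := (mat : Module.End ℚ_[ℓ] V →* _).comp ρ
  have hMs : ∀ s, M s = mat (ρ s) := fun s => rfl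
  obtain ⟨Δ, hΔ, hnear⟩ := exists_near M χ (by
    intro i j
    have h1 : (fun s => M s i j) = fun s => (b.coord i) (ρ s (b j)) := by
      funext s
      rw [hMs]
      exact LinearMap.toMatrixAlgEquiv_apply b (ρ s) i j
    rw [h1]
    exact hρ (b j) (b.coord i)) hχ
  refine ⟨Δ, hΔ, fun s hs => ?_⟩
  obtain ⟨h1, h2⟩ := hnear s hs
  obtain ⟨Y₀, y₀, hcomm, hfirst⟩ := exists_log (M s) (χ s) h1 h2
  set Y : Module.End ℚ_[ℓ] V := mat.symm Y₀ with hY
  -- the action of a matrix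
  have hact : ∀ (A : Module.End ℚ_[ℓ] V) (w : Fin n → ℚ_[ℓ]),
      b.equivFun.symm ((mat A).mulVec w) = A (b.equivFun.symm w) := by
    intro A w
    apply b.equivFun.injective
    rw [LinearEquiv.apply_symm_apply]
    have h3 : (mat A).mulVec (b.repr (b.equivFun.symm w)) = b.repr (A (b.equivFun.symm w)) :=
      LinearMap.toMatrix_mulVec_repr b b A (b.equivFun.symm w)
    have h4 : (b.repr (b.equivFun.symm w) : Fin n → ℚ_[ℓ]) = w := by
      rw [← Basis.equivFun_apply, LinearEquiv.apply_symm_apply]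
    rw [h4] at h3
    rw [Basis.equivFun_apply]
    exact h3
  have hmem : Y - (y₀ / 2) • (1 : Module.End ℚ_[ℓ] V) ∈ lieT ρ χ := by
    rintro m φ ⟨Δ', hΔ', hinv⟩ v
    obtain ⟨N, hN0, -, hN⟩ := Subgroup.exists_pow_mem_of_index_ne_zero hΔ'.index_ne_zero s
    let φ' : MultilinearMap ℚ_[ℓ] (fun _ : Fin m × Fin 2 => Fin n → ℚ_[ℓ]) ℚ_[ℓ] :=
      φ.compLinearMap fun _ => b.equivFun.symm.toLinearMap
    have hφ'a : ∀ u, φ' u = φ (fun l => b.equivFun.symm (u l)) := fun u => rfl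
    have h3 := hfirst (Fin m × Fin 2) φ' N (N * m) (by
      intro j u
      rw [hφ'a, hφ'a]
      have e1 : (fun l => b.equivFun.symm ((M s ^ (N * j)).mulVec (u l))) =
          fun l => ρ (s ^ (N * j)) (b.equivFun.symm (u l)) := by
        funext l
        have e2 : M s ^ (N * j) = mat (ρ (s ^ (N * j))) := by
          rw [← hMs, map_pow]
        rw [e2, hact]
      rw [e1]
      have e3 : s ^ (N * j) ∈ Δ' := by
        rw [pow_mul]
        exact Δ'.pow_mem hN j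
      rw [hinv _ e3, map_pow, ← pow_mul]
      congr 2
      ring) (fun l => b.equivFun (v l))
    have h4 : ∀ j, φ' (Function.update (fun l => b.equivFun (v l)) j
        (Y₀.mulVec (b.equivFun (v j)))) = φ (Function.update v j (Y (v j))) := by
      intro j
      rw [hφ'a]
      congr 1
      funext l
      by_cases hl : l = j
      · subst hl
        rw [Function.update_self, Function.update_self]
        have h5 := hact Y (b.equivFun (v l))
        rw [hY, AlgEquiv.apply_symm_apply] at h5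
        rw [h5, LinearEquiv.symm_apply_apply]
      · rw [Function.update_of_ne hl, Function.update_of_ne hl, LinearEquiv.symm_apply_apply]
    have h5 : φ' (fun l => b.equivFun (v l)) = φ v := by
      rw [hφ'a]
      congr 1
      funext l
      rw [LinearEquiv.symm_apply_apply]
    rw [h5, Finset.sum_congr rfl fun j _ => h4 j] at h3
    have hN1 : (N : ℚ_[ℓ]) ≠ 0 := by exact_mod_cast hN0.ne'
    have h6 : ∑ j, φ (Function.update v j (Y (v j))) = m * y₀ * φ v := by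
      apply mul_left_cancel₀ hN1
      rw [h3]
      push_cast
      ring
    have h7 : ∀ j, φ (Function.update v j ((Y - (y₀ / 2) • (1 : Module.End ℚ_[ℓ] V)) (v j))) =
        φ (Function.update v j (Y (v j))) - y₀ / 2 * φ v := by
      intro j
      rw [LinearMap.sub_apply, LinearMap.smul_apply, Module.End.one_apply,
        MultilinearMap.map_update_sub, MultilinearMap.map_update_smul, Function.update_eq_self,
        smul_eq_mul]
    rw [Finset.sum_congr rfl fun j _ => h7 j, Finset.sum_sub_distrib, h6, Finset.sum_const,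
      Finset.card_univ, Fintype.card_prod, Fintype.card_fin, Fintype.card_fin, nsmul_eq_mul]
    push_cast
    ring
  have h8 := hP _ hmem
  have h9 : Y * P = P * Y := by
    rw [sub_mul, mul_sub, smul_mul_assoc, mul_smul_comm, one_mul, mul_one] at h8
    exact sub_left_injective h8
  have h10 : Y₀ * mat P = mat P * Y₀ := by
    have := congrArg mat h9
    rwa [map_mul, map_mul, hY, AlgEquiv.apply_symm_apply] at this
  have h11 := hcomm _ h10
  rw [hMs, ← map_mul, ← map_mul] at h11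
  have h12 := mat.injective h11
  intro v
  exact (congrArg (fun f => f v) h12).symm

end Pool.Agent.TH30.MT
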