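import Mathlib
import Pool.Agent.W516.MT.Stmt

/-!
# The trace form on the skew endomorphisms of a polarized abelian variety
-/

namespace Pool.Agent.TH30.MT

open Module

/-- Positivity for real vector spaces. -/
theorem real_ros {T : Type} [AddCommGroup T] [Module ℝ T] [FiniteDimensional ℝ T]
    (g : T →ₗ[ℝ] T →ₗ[ℝ] ℝ) (hsym : ∀ u v, g u v = g v u) (hpos : ∀ u, u ≠ 0 → 0 < g u u)
    (F : T →ₗ[ℝ] T) (hF : ∀ u v, g (F u) v = - g u (F v))
    (htr : LinearMap.trace ℝ T (F ∘ₗ F) = 0) : F = 0 := by
  obtain ⟨v, hv⟩ := LinearMap.BilinForm.exists_orthogonal_basis (B := g)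
    (hB₂ := ⟨fun u w => by simpa using hsym u w⟩)
  have hv' : ∀ i j, i ≠ j → g (v i) (v j) = 0 := fun i j hij => hv hij
  have hvv : ∀ i, 0 < g (v i) (v i) := fun i => hpos _ (v.ne_zero i)
  have hco : ∀ (w : T) i, v.repr w i = g w (v i) / g (v i) (v i) := by
    intro w i
    rw [eq_div_iff (hvv i).ne']
    conv_rhs => rw [← v.sum_repr w, map_sum, LinearMap.sum_apply]
    rw [Finset.sum_eq_single i]
    · rw [map_smul, LinearMap.smul_apply, smul_eq_mul]
    · intro j _ hj
      rw [map_smul, LinearMap.smul_apply, hv' j i hj, smul_zero]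
    · intro h
      exact absurd (Finset.mem_univ i) h
  have h1 : LinearMap.trace ℝ T (F ∘ₗ F) = ∑ i, - (g (F (v i)) (F (v i)) / g (v i) (v i)) := by
    rw [LinearMap.trace_eq_matrix_trace ℝ v, Matrix.trace]
    refine Finset.sum_congr rfl fun i _ => ?_
    rw [Matrix.diag_apply, LinearMap.toMatrix_apply, hco, LinearMap.comp_apply, hF, neg_div]
  rw [h1, Finset.sum_neg_distrib, neg_eq_zero] at htr
  have hnn : ∀ i ∈ Finset.univ, 0 ≤ g (F (v i)) (F (v i)) / g (v i) (v i) := by
    intro i _
    refine div_nonneg ?_ (hvv i).le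
    by_cases h : F (v i) = 0
    · rw [h, map_zero]
    · exact (hpos _ h).le
  rw [Finset.sum_eq_zero_iff_of_nonneg hnn] at htr
  refine v.ext fun i => ?_
  by_contra h
  have h2 := htr i (Finset.mem_univ i)
  rw [div_eq_zero_iff] at h2
  rcases h2 with h2 | h2
  · exact (hpos _ h).ne' h2
  · exact (hvv i).ne' h2

theorem ros : Pool.Agent.W516.MTS.S_ROS := by
  intro W T _ _ _ _ _ per n b b' hb ω₀ E hE hI halt hpos P P' hP hskew htr
  have : FiniteDimensional ℝ T := Module.Finite.of_basis b'
  set J : T →ₗ[ℝ] T := (LinearMap.lsmul ℂ T Complex.I).restrictScalars ℝ with hJ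
  have hJa : ∀ u, J u = Complex.I • u := fun u => rfl
  have hanti : ∀ u v, E u v = - E v u := by
    intro u v
    have h := halt (u + v)
    rw [map_add, map_add, LinearMap.add_apply, LinearMap.add_apply, halt, halt, zero_add,
      add_zero] at h
    linarith
  set F : T →ₗ[ℝ] T := P'.restrictScalars ℝ with hFd
  have hFa : ∀ u, F u = P' u := fun u => rfl
  -- `F` is skew for `E`
  have hFE : ∀ u v, E (F u) v + E u (F v) = 0 := by
    have h1 : E.comp F + E.compl₂ F = 0 := by
      refine b'.ext fun i => b'.ext fun j => ?_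
      rw [LinearMap.add_apply, LinearMap.add_apply, LinearMap.comp_apply, LinearMap.compl₂_apply,
        hFa, hFa, hb, hb, hP, hP, hE, hE, LinearMap.zero_apply, LinearMap.zero_apply]
      exact_mod_cast hskew (b i) (b j)
    intro u v
    have h2 := congrArg (fun f => f u v) h1
    exact h2
  have h0 : F = 0 := by
    refine real_ros (E.comp J) ?_ ?_ F ?_ ?_
    · intro u v
      rw [LinearMap.comp_apply, LinearMap.comp_apply, hJa, hJa, ← hI (Complex.I • u) v, smul_smul,
        Complex.I_mul_I, neg_one_smul, map_neg, LinearMap.neg_apply, hanti u, neg_neg]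
    · intro u hu
      exact hpos u hu
    · intro u v
      rw [LinearMap.comp_apply, LinearMap.comp_apply, hJa, hJa]
      have h1 : Complex.I • F u = F (Complex.I • u) := by
        rw [hFa, hFa, map_smul]
      rw [h1]
      linarith [hFE (Complex.I • u) v]
    · have h1 : LinearMap.trace ℝ T (F ∘ₗ F) = ((LinearMap.trace ℚ W (P ∘ₗ P) : ℚ) : ℝ) := by
        rw [LinearMap.trace_eq_matrix_trace ℝ b', LinearMap.trace_eq_matrix_trace ℚ b,
          Matrix.trace, Matrix.trace, Rat.cast_sum]
        refine Finset.sum_congr rfl fun i _ => ?_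
        rw [Matrix.diag_apply, Matrix.diag_apply, LinearMap.toMatrix_apply,
          LinearMap.toMatrix_apply, LinearMap.comp_apply, LinearMap.comp_apply, hFa, hFa, hb, hP,
          hP]
        have h2 : ∀ w : W, b'.repr (per w) i = ((b.repr w i : ℚ) : ℝ) := by
          intro w
          have h3 : per w = ∑ j, ((b.repr w j : ℚ) : ℝ) • b' j := by
            conv_lhs => rw [← b.sum_repr w, map_sum]
            refine Finset.sum_congr rfl fun j _ => ?_
            rw [hb]
            exact map_ratCast_smul per ℚ ℝ (b.repr w j) (b j)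
          rw [h3, b'.repr_sum_self]
        exact h2 _
      rw [h1, htr, Rat.cast_zero]
  -- `per` is injective
  have hinj : ∀ w : W, per w = 0 → w = 0 := by
    intro w hw
    have h3 : per w = ∑ j, ((b.repr w j : ℚ) : ℝ) • b' j := by
      conv_lhs => rw [← b.sum_repr w, map_sum]
      refine Finset.sum_congr rfl fun j _ => ?_
      rw [hb]
      exact map_ratCast_smul per ℚ ℝ (b.repr w j) (b j)
    rw [hw] at h3
    apply b.repr.injective
    ext i
    have h4 := (Fintype.linearIndependent_iff.1 b'.linearIndependent) _ h3.symm i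
    rw [map_zero, Finsupp.zero_apply]
    exact_mod_cast h4
  refine LinearMap.ext fun w => ?_
  apply hinj
  rw [← hP]
  have h1 := congrArg (fun f => f (per w)) h0
  exact h1

end Pool.Agent.TH30.MT
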