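import Mathlib
import Pool.Agent.W516.MT.Stmt

/-!
# The Lie algebra acts semisimply
-/

namespace Pool.Agent.TH30.MT

open Module

theorem semi : Pool.Agent.W516.MTS.S_SEMI := by
  intro k V Γ _ _ _ _ _ ρ 𝔥 hconj hss hcen U hU
  classical
  let Inv : Submodule k V → Prop := fun U => ∀ X ∈ 𝔥, ∀ u ∈ U, X u ∈ U
  let Atom : Submodule k V → Prop := fun A =>
    Inv A ∧ A ≠ ⊥ ∧ ∀ B, Inv B → B ≤ A → B = ⊥ ∨ B = A
  have hinf : ∀ A B, Inv A → Inv B → Inv (A ⊓ B) := fun A B hA hB X hX u hu =>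
    ⟨hA X hX u hu.1, hB X hX u hu.2⟩
  have hsup : ∀ A B, Inv A → Inv B → Inv (A ⊔ B) := by
    intro A B hA hB X hX u hu
    obtain ⟨a, ha, b, hb, rfl⟩ := Submodule.mem_sup.1 hu
    rw [map_add]
    exact Submodule.add_mem_sup (hA X hX a ha) (hB X hX b hb)
  have hatom : ∀ A, Inv A → A ≠ ⊥ → ∃ B, Atom B ∧ B ≤ A := by
    intro A hA hA0
    obtain ⟨B, ⟨hB1, hB2, hB3⟩, hmin⟩ := (wellFounded_lt (α := Submodule k V)).has_min
      {B | Inv B ∧ B ≠ ⊥ ∧ B ≤ A} ⟨A, hA, hA0, le_rfl⟩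
    refine ⟨B, ⟨hB1, hB2, fun C hC hCB => ?_⟩, hB3⟩
    by_contra h
    push Not at h
    exact hmin C ⟨hC, h.1, hCB.trans hB3⟩ (lt_of_le_of_ne hCB h.2)
  have hinv : ∀ s u, ρ s⁻¹ (ρ s u) = u := by
    intro s u
    rw [← Module.End.mul_apply, ← map_mul, inv_mul_cancel, map_one, Module.End.one_apply]
  have hinv' : ∀ s u, ρ s (ρ s⁻¹ u) = u := by
    intro s u
    rw [← Module.End.mul_apply, ← map_mul, mul_inv_cancel, map_one, Module.End.one_apply]
  have hmapmap : ∀ s (A : Submodule k V), (A.map (ρ s)).map (ρ s⁻¹) = A := by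
    intro s A
    rw [← Submodule.map_comp]
    have h : (ρ s⁻¹ : Module.End k V) ∘ₗ ρ s = LinearMap.id := LinearMap.ext fun u => hinv s u
    rw [h, Submodule.map_id]
  have hmapmap' : ∀ s (A : Submodule k V), (A.map (ρ s⁻¹)).map (ρ s) = A := by
    intro s A
    rw [← Submodule.map_comp]
    have h : (ρ s : Module.End k V) ∘ₗ ρ s⁻¹ = LinearMap.id := LinearMap.ext fun u => hinv' s u
    rw [h, Submodule.map_id]
  have hInvMap : ∀ s A, Inv A → Inv (A.map (ρ s)) := by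
    rintro s A hA X hX u ⟨a, ha, rfl⟩
    have h1 := hconj s⁻¹ X hX
    rw [inv_inv] at h1
    refine ⟨(ρ s⁻¹ * X * ρ s) a, hA _ h1 a ha, ?_⟩
    rw [Module.End.mul_apply, Module.End.mul_apply, hinv']
  have hAtomMap : ∀ s A, Atom A → Atom (A.map (ρ s)) := by
    rintro s A ⟨h1, h2, h3⟩
    refine ⟨hInvMap s A h1, fun h => h2 ?_, fun B hB hBA => ?_⟩
    · rw [← hmapmap s A, h, Submodule.map_bot]
    · have h4 : B.map (ρ s⁻¹) ≤ A := by
        rw [← hmapmap s A]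
        exact Submodule.map_mono hBA
      rcases h3 _ (hInvMap s⁻¹ B hB) h4 with h5 | h5
      · left
        rw [← hmapmap' s B, h5, Submodule.map_bot]
      · right
        rw [← hmapmap' s B, h5]
  -- the socle
  set S : Submodule k V := ⨆ (A : Submodule k V) (_ : Atom A), A with hS
  have hAS : ∀ A, Atom A → A ≤ S := fun A hA => le_iSup₂_of_le A hA le_rfl
  have hSst : ∀ s, ∀ u ∈ S, ρ s u ∈ S := by
    intro s u hu
    have h1 : S ≤ S.comap (ρ s) := by
      rw [hS]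
      refine iSup₂_le fun A hA a ha => ?_
      exact hAS _ (hAtomMap s A hA) ⟨a, ha, rfl⟩
    exact h1 hu
  obtain ⟨S', hS'st, hc⟩ := hss S hSst
  have hdec : ∀ v, ∃ a ∈ S, ∃ b ∈ S', a + b = v := by
    intro v
    have h : v ∈ S ⊔ S' := by
      rw [hc.sup_eq_top]
      trivial
    exact Submodule.mem_sup.1 h
  let P : Module.End k V := S.subtype ∘ₗ Submodule.projectionOnto S S' hc
  have hPab : ∀ a ∈ S, ∀ b ∈ S', P (a + b) = a := by
    intro a ha b hb
    change ((Submodule.projectionOnto S S' hc (a + b) : S) : V) = a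
    rw [map_add, Submodule.projectionOnto_apply_of_mem_right hc hb, add_zero,
      Submodule.projectionOnto_apply_left hc ⟨a, ha⟩]
  have hPcomm : ∀ s, P * ρ s = ρ s * P := by
    intro s
    refine LinearMap.ext fun v => ?_
    obtain ⟨a, ha, b, hb, rfl⟩ := hdec v
    rw [Module.End.mul_apply, Module.End.mul_apply, hPab a ha b hb, map_add,
      hPab _ (hSst s a ha) _ (hS'st s b hb)]
  have hS'inv : Inv S' := by
    intro X hX b hb
    have h1 := congrArg (fun f => f b) (hcen P hPcomm X hX)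
    simp only [Module.End.mul_apply] at h1
    have h2 : P b = 0 := by
      have := hPab 0 S.zero_mem b hb
      rwa [zero_add] at this
    rw [h2, map_zero] at h1
    obtain ⟨a, ha, b', hb', hab⟩ := hdec (X b)
    rw [← hab, hPab a ha b' hb'] at h1
    rw [← hab, ← h1, zero_add]
    exact hb'
  have hS'0 : S' = ⊥ := by
    by_contra h
    obtain ⟨B, hB, hBS'⟩ := hatom S' hS'inv h
    apply hB.2.1
    rw [eq_bot_iff, ← hc.inf_eq_bot]
    exact le_inf (hAS B hB) hBS'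
  have hStop : S = ⊤ := by
    have := hc.sup_eq_top
    rwa [hS'0, sup_bot_eq] at this
  -- a maximal stable subspace that meets `U` in zero
  obtain ⟨U', ⟨hU'1, hU'2⟩, hmax⟩ := (wellFounded_gt (α := Submodule k V)).has_min
    {B | Inv B ∧ U ⊓ B = ⊥} ⟨⊥, fun X _ u hu => by
      rw [Submodule.mem_bot] at hu ⊢
      rw [hu, map_zero], inf_bot_eq U⟩
  refine ⟨U', hU'1, disjoint_iff.2 hU'2, codisjoint_iff.2 ?_⟩
  rw [eq_top_iff, ← hStop, hS]
  refine iSup₂_le fun A hA => ?_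
  by_contra hAn
  have h1 : A ⊓ (U ⊔ U') = ⊥ := by
    rcases hA.2.2 _ (hinf _ _ hA.1 (hsup _ _ hU hU'1)) inf_le_left with h | h
    · exact h
    · exact absurd (inf_eq_left.1 h) hAn
  have h2 : U ⊓ (U' ⊔ A) = ⊥ := by
    rw [eq_bot_iff]
    rintro u ⟨hu1, hu2⟩
    obtain ⟨u', hu', a, ha, hua⟩ := Submodule.mem_sup.1 hu2
    have h3 : a ∈ A ⊓ (U ⊔ U') := by
      refine ⟨ha, Submodule.mem_sup.2 ⟨u, hu1, -u', U'.neg_mem hu', ?_⟩⟩
      rw [← hua]
      abel
    rw [h1, Submodule.mem_bot] at h3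
    rw [h3, add_zero] at hua
    rw [← hU'2]
    exact ⟨hu1, hua ▸ hu'⟩
  refine hmax (U' ⊔ A) ⟨hsup _ _ hU'1 hA.1, h2⟩ (lt_of_le_of_ne le_sup_left fun h => hAn ?_)
  rw [h]
  exact le_sup_of_le_right le_sup_right

end Pool.Agent.TH30.MT
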