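import Mathlib
import Pool.Agent.W516.MT.Main2
import Pool.Agent.TH30.MT.Comm
import Pool.Agent.TH30.MT.Semi
import Pool.Agent.TH30.MT.Ros

/-!
# One quartic Tate class
-/

set_option linter.unusedSectionVars false

namespace Pool.Agent.TH30.MT

open Module TensorProduct Pool.Agent.H204R3.SP Pool.Agent.H204R3.GP Pool.Agent.W516.KC
  Pool.Agent.W516.MTD Pool.Agent.W516.DR Pool.Agent.W516.MTM

noncomputable section

/-- `Θ` is the Casimir class of the Lie algebra `𝔤` of the endomorphisms of `V` which annihilate all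
Tate classes: `Θ (v₁, v₂, v₃, v₄) = ∑ ω (X_i v₁) v₂ * ω (Y_i v₃) v₄`, where `X_i`, `Y_i` are bases of
`𝔤` which are dual to each other for the trace form. -/
def IsCasimir {k V Γ : Type} [Field k] [AddCommGroup V] [Module k V] [Group Γ]
    (ρ : Representation k Γ V) (χ : Γ →* k) (ω : V →ₗ[k] V →ₗ[k] k)
    (Θ : MultilinearMap k (fun _ : Fin 2 × Fin 2 => V) k) : Prop :=
  ∃ (d : ℕ) (X Y : Fin d → Module.End k V), Submodule.span k (Set.range X) = lieT ρ χ ∧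
    (∀ i, Y i ∈ lieT ρ χ) ∧
    (∀ i j, LinearMap.trace k V (X i * Y j) = if i = j then 1 else 0) ∧
    ∀ v, Θ v = ∑ i, ω (X i (v (0, 0))) (v (0, 1)) * ω (Y i (v (1, 0))) (v (1, 1))

variable {ℓ : ℕ} [Fact ℓ.Prime] {W T : Type} [AddCommGroup W] [Module ℚ W]
  [FiniteDimensional ℚ W] [AddCommGroup T] [Module ℂ T] (per : W →+ T)
  {Γ : Type} [Group Γ] [TopologicalSpace Γ] [IsTopologicalGroup Γ] [CompactSpace Γ]
  (ρ : Representation ℚ_[ℓ] Γ (ℚ_[ℓ] ⊗[ℚ] W)) (χ : Γ →* ℚ_[ℓ])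
  (hρ : ∀ (v : ℚ_[ℓ] ⊗[ℚ] W) (f : ℚ_[ℓ] ⊗[ℚ] W →ₗ[ℚ_[ℓ]] ℚ_[ℓ]), Continuous fun s => f (ρ s v))
  (hχ : Continuous χ)
  (ω₀ : W →ₗ[ℚ] W →ₗ[ℚ] ℚ) (ω : ℚ_[ℓ] ⊗[ℚ] W →ₗ[ℚ_[ℓ]] ℚ_[ℓ] ⊗[ℚ] W →ₗ[ℚ_[ℓ]] ℚ_[ℓ])
  (hper : Pool.Agent.W516.MTD.IsRationalStructure per) (hR : IsRiemannForm per ω₀)
  (hωω : ∀ u v : W, ω ((1 : ℚ_[ℓ]) ⊗ₜ[ℚ] u) ((1 : ℚ_[ℓ]) ⊗ₜ[ℚ] v) = algebraMap ℚ ℚ_[ℓ] (ω₀ u v))
  (hωρ : ∀ s u v, ω (ρ s u) (ρ s v) = χ s * ω u v)
  (hD : Deligne per ρ χ) (hF : Faltings per ρ) (hS : Semisimple ρ) (hC : Centres per ρ χ)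

include hρ hχ hF in
theorem hcomm (P : Module.End ℚ_[ℓ] (ℚ_[ℓ] ⊗[ℚ] W)) (hP : ∀ X ∈ lieT ρ χ, X * P = P * X) :
    P ∈ endos ℚ_[ℓ] per :=
  hF P (comm_finite (Module.finBasis ℚ_[ℓ] (ℚ_[ℓ] ⊗[ℚ] W)) ρ χ hρ hχ P hP)

include hper hR hωω hωρ hD hF hS in
theorem hsemi : Semi (lieT ρ χ) := by
  refine semi ℚ_[ℓ] (ℚ_[ℓ] ⊗[ℚ] W) Γ ρ (lieT ρ χ) (fun s X hX => lieT_conj ρ χ s hX) hS ?_
  intro P hP X hX
  exact lieT_comm per ρ χ ω₀ ω hper hR hωω hωρ hD hX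
    (hF P ⟨⊤, inferInstance, fun s _ v => congrArg (fun f => f v) (hP s)⟩)

include hρ hχ hper hR hωω hωρ hD hF hS hC in
/-- The trace form of the Lie algebra is nondegenerate. -/
theorem hnt : Pool.Agent.W516.KC2.TraceNondeg (lieT ρ χ) :=
  lieT_trace per ρ χ ω₀ ω hper hR hωω hωρ hD hC (hcomm per ρ χ hρ hχ hF)
    (hsemi per ρ χ ω₀ ω hper hR hωω hωρ hD hF hS) ros

/-- The Casimir class is determined. -/
theorem eq_casimir {k V Γ : Type} [Field k] [CharZero k] [AddCommGroup V] [Module k V]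
    [FiniteDimensional k V] [Group Γ] (ρ : Representation k Γ V) (χ : Γ →* k)
    (ω : V →ₗ[k] V →ₗ[k] k) (hnt : Pool.Agent.W516.KC2.TraceNondeg (lieT ρ χ))
    {Θ : MultilinearMap k (fun _ : Fin 2 × Fin 2 => V) k} (hΘ : IsCasimir ρ χ ω Θ) :
    Θ = Pool.Agent.W516.KC2.casimir (lieT ρ χ) hnt ω := by
  obtain ⟨d, X, Y, hX, hY, hXY, hΘ⟩ := hΘ
  ext v
  rw [Pool.Agent.W516.KC2.casimir_apply, hΘ]
  have h1 : Pool.Agent.W516.KC2.EE (lieT ρ χ) hnt ω (v (0, 0)) (v (0, 1)) =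
      ∑ i, ω (X i (v (0, 0))) (v (0, 1)) • Y i := by
    refine Pool.Agent.W516.KC2.ext_trace (lieT ρ χ) hnt (Pool.Agent.W516.KC2.EE_mem ..)
      (Submodule.sum_mem _ fun i _ => Submodule.smul_mem _ _ (hY i)) fun Z hZ => ?_
    rw [Pool.Agent.W516.KC2.EE_trace _ _ _ _ _ hZ]
    rw [← hX] at hZ
    induction hZ using Submodule.span_induction with
    | mem Z h =>
      obtain ⟨j, rfl⟩ := h
      rw [Finset.sum_mul, map_sum, Finset.sum_eq_single j]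
      · rw [smul_mul_assoc, map_smul, LinearMap.trace_mul_comm, hXY, if_pos rfl, smul_eq_mul,
          mul_one]
      · intro i _ hij
        rw [smul_mul_assoc, map_smul, LinearMap.trace_mul_comm, hXY, if_neg (Ne.symm hij),
          smul_zero]
      · intro h
        exact absurd (Finset.mem_univ _) h
    | zero => simp
    | add a b _ _ ha hb =>
      rw [LinearMap.add_apply, map_add, LinearMap.add_apply, ha, hb, mul_add, map_add]
    | smul c a _ ha =>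
      rw [LinearMap.smul_apply, map_smul, LinearMap.smul_apply, ha, mul_smul_comm, map_smul]
  rw [h1, LinearMap.sum_apply, map_sum, LinearMap.sum_apply]
  refine Finset.sum_congr rfl fun i _ => ?_
  rw [LinearMap.smul_apply, map_smul, LinearMap.smul_apply, smul_eq_mul]

theorem exists_isCasimir {k V Γ : Type} [Field k] [CharZero k] [AddCommGroup V] [Module k V]
    [FiniteDimensional k V] [Group Γ] (ρ : Representation k Γ V) (χ : Γ →* k)
    (ω : V →ₗ[k] V →ₗ[k] k) (hnt : Pool.Agent.W516.KC2.TraceNondeg (lieT ρ χ)) :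
    ∃ Θ, IsCasimir ρ χ ω Θ := by
  refine ⟨Pool.Agent.W516.KC2.casimir (lieT ρ χ) hnt ω, finrank k (lieT ρ χ),
    fun i => (Module.finBasis k (lieT ρ χ) i).1,
    fun i => ((Pool.Agent.W516.KC2.trE (lieT ρ χ) hnt).symm
      ((Module.finBasis k (lieT ρ χ)).coord i)).1, ?_, ?_, ?_, ?_⟩
  · apply le_antisymm
    · rw [Submodule.span_le]
      rintro _ ⟨i, rfl⟩
      exact (Module.finBasis k (lieT ρ χ) i).2
    · intro Z hZ
      have h1 := (Module.finBasis k (lieT ρ χ)).sum_repr ⟨Z, hZ⟩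
      have h2 := congrArg Subtype.val h1
      simp only [Submodule.coe_sum, Submodule.coe_smul] at h2
      rw [← h2]
      exact Submodule.sum_mem _ fun i _ => Submodule.smul_mem _ _
        (Submodule.subset_span ⟨i, rfl⟩)
  · intro i
    exact ((Pool.Agent.W516.KC2.trE (lieT ρ χ) hnt).symm
      ((Module.finBasis k (lieT ρ χ)).coord i)).2
  · intro i j
    rw [LinearMap.trace_mul_comm, Pool.Agent.W516.KC2.trE_symm, Basis.coord_apply,
      Basis.repr_self, Finsupp.single_apply]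
  · intro v
    unfold Pool.Agent.W516.KC2.casimir
    rw [sum_apply]
    refine Finset.sum_congr rfl fun a _ => ?_
    rw [mmG_apply, Fin.prod_univ_two, if_pos rfl, if_neg (by decide)]
    rfl

include hρ hχ hper hR hωω hωρ hD hF hS hC in
/-- **One quartic Tate class decides the Mumford-Tate conjecture.** -/
theorem main : (∃ Θ, IsCasimir ρ χ ω Θ) ∧
    ∀ Θ : MultilinearMap ℚ_[ℓ] (fun _ : Fin 2 × Fin 2 => ℚ_[ℓ] ⊗[ℚ] W) ℚ_[ℓ],
      IsCasimir ρ χ ω Θ → IsTateTensor ρ χ 2 Θ ∧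
      (Pool.Agent.W516.MTD.IsHodgeCombination per Θ ↔ ∀ (m : ℕ)
        (φ : MultilinearMap ℚ_[ℓ] (fun _ : Fin m × Fin 2 => ℚ_[ℓ] ⊗[ℚ] W) ℚ_[ℓ]),
        IsTateTensor ρ χ m φ → Pool.Agent.W516.MTD.IsHodgeCombination per φ) := by
  have hcomm := hcomm per ρ χ hρ hχ hF
  have hnt := hnt per ρ χ hρ hχ ω₀ ω hper hR hωω hωρ hD hF hS hC
  have hnd₀ := riemann_nondeg per ω₀ hper hR
  have hnd := nondeg_ext ω₀ ω hωω hnd₀
  have hRH := riemann_hodge per ω₀ hR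
  refine ⟨exists_isCasimir ρ χ ω hnt, fun Θ hΘ' => ?_⟩
  have hΘe := eq_casimir ρ χ ω hnt hΘ'
  subst hΘe
  have hTate : IsTateTensor ρ χ 2 (Pool.Agent.W516.KC2.casimir (lieT ρ χ) hnt ω) := by
    refine ⟨⊤, inferInstance, fun s _ v => ?_⟩
    refine Pool.Agent.W516.KC2.casimir_inv (lieT ρ χ) hnt ω (g := ρ s) (g' := ρ s⁻¹) ?_ ?_
      (hωρ s) ?_ ?_ v
    · rw [← map_mul, inv_mul_cancel, map_one]
    · rw [← map_mul, mul_inv_cancel, map_one]
    · intro X hX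
      exact lieT_conj ρ χ s hX
    · intro X hX
      have h1 := lieT_conj ρ χ s⁻¹ hX
      rwa [inv_inv] at h1
  refine ⟨hTate, fun hΘ m φ hφ => ?_, fun h => h 2 _ hTate⟩
  -- the endomorphisms that kill the Hodge classes are in the Lie algebra
  have hmem : ∀ Z₀ : Module.End ℚ W, (∀ (m' : ℕ)
      (ψ : MultilinearMap ℚ (fun _ : Fin m' × Fin 2 => W) ℚ), IsHodgeTensor per ψ →
        Kills Z₀ ψ) → Z₀.baseChange ℚ_[ℓ] ∈ lieT ρ χ := by
    intro Z₀ hk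
    have hZs : IsSkew ω (Z₀.baseChange ℚ_[ℓ]) :=
      skew_ext ω₀ ω hωω ((kills_one2 ω₀ Z₀).1 (hk 1 _ (one2_hodge per ω₀ hRH)))
    have hZk : Kills (Z₀.baseChange ℚ_[ℓ])
        (Pool.Agent.W516.KC2.casimir (lieT ρ χ) hnt ω) :=
      kills_span (fun ψ => IsHodgeTensor per ψ) Z₀ (hk 2) _ ((hc_iff per _).1 hΘ)
    obtain ⟨Y, hY, hYc⟩ := Pool.Agent.W516.KC2.mem_of_kills_casimir (lieT ρ χ) hnt ω
      (fun X hX Y hY => lieT_bracket ρ χ hX hY) hnd hZs hZk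
    have h1 : Z₀.baseChange ℚ_[ℓ] - Y ∈ lieT ρ χ := by
      refine hC _ (hcomm _ hYc) (fun P hP => ?_) (fun m φ hφ => ?_)
      · have e1 := comm_endos per ω₀ hper hR Z₀ hk hP
        have e2 := lieT_comm per ρ χ ω₀ ω hper hR hωω hωρ hD hY hP
        refine LinearMap.ext fun z => ?_
        have e3 := congrArg (fun f : Module.End ℚ_[ℓ] (ℚ_[ℓ] ⊗[ℚ] W) => f z) e1
        have e4 := congrArg (fun f : Module.End ℚ_[ℓ] (ℚ_[ℓ] ⊗[ℚ] W) => f z) e2
        simp only [Module.End.mul_apply] at e3 e4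
        rw [Module.End.mul_apply, Module.End.mul_apply, LinearMap.sub_apply, LinearMap.sub_apply,
          map_sub, e3, e4]
      · have h2 := kills_span (fun ψ => IsHodgeTensor per ψ) Z₀ (hk m) φ ((hc_iff per φ).1 hφ)
        have h3 := lieT_hc per ρ χ hD hY φ hφ
        intro v
        have h4 : ∀ j, φ (Function.update v j ((Z₀.baseChange ℚ_[ℓ] - Y) (v j))) =
            φ (Function.update v j (Z₀.baseChange ℚ_[ℓ] (v j))) -
              φ (Function.update v j (Y (v j))) := by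
          intro j
          rw [LinearMap.sub_apply, MultilinearMap.map_update_sub]
        rw [Finset.sum_congr rfl (fun j _ => h4 j), Finset.sum_sub_distrib, h2 v, h3 v, sub_zero]
    have h2 : Z₀.baseChange ℚ_[ℓ] = (Z₀.baseChange ℚ_[ℓ] - Y) + Y := by abel
    rw [h2]
    exact Submodule.add_mem _ h1 hY
  rw [hc_iff]
  refine form_mem_span (fun ψ => IsHodgeTensor per ψ) φ fun lam => ?_
  refine hodge_of_kills per hper _ fun Z₀ hk => ?_
  exact kills_fcmp lam φ Z₀ (hmem Z₀ hk m φ hφ)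

end

end Pool.Agent.TH30.MT
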